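import Pool.Agent.TH948.HT.Defs

set_option autoImplicit false
set_option linter.unusedSectionVars false

/-!
# First and second moment for the hypergraph process: general tools
-/

namespace Pool.Agent.TH948.HT

open Finset
open scoped Classical
open Pool.Agent.TH965.Spread Pool.Agent.TH948.KK Pool.Agent.TH948.BD

section general

variable {X : Type*}

lemma pq_prod (s : Finset X) (p : ℝ) (a : X → ℝ) :
    exs s p (fun W => ∏ x ∈ W, a x) = ∏ x ∈ s, (1 - p + p * a x) := by
  induction s using Finset.induction_on with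
  | empty => simp [exs_empty]
  | insert x s hx ih =>
    rw [exs_insert s x hx, Finset.prod_insert hx, ← ih]
    have : exs s p (fun W => ∏ y ∈ insert x W, a y) = a x * exs s p (fun W => ∏ y ∈ W, a y) := by
      rw [← exs_mul_left]
      apply exs_congr
      intro W hW
      rw [Finset.prod_insert (fun h => hx (hW h))]
    rw [this]; ring

lemma pq_avoid (s A : Finset X) (hA : A ⊆ s) (p : ℝ) :
    exs s p (fun W => ind (∀ x ∈ A, x ∉ W)) = (1 - p) ^ A.card := by
  have h1 : exs s p (fun W => ind (∀ x ∈ A, x ∉ W))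
      = exs s p (fun W => ∏ x ∈ W, (if x ∈ A then (0:ℝ) else 1)) := by
    apply exs_congr
    intro W _
    by_cases h : ∀ x ∈ A, x ∉ W
    · rw [ind_true h, Finset.prod_eq_one]
      intro x hx
      rw [if_neg (fun hxA => h x hxA hx)]
    · rw [ind_false h]
      push Not at h
      obtain ⟨x, hxA, hxW⟩ := h
      rw [Finset.prod_eq_zero hxW (by rw [if_pos hxA])]
  rw [h1, pq_prod]
  have h2 : ∀ x ∈ s, (1 - p + p * (if x ∈ A then (0:ℝ) else 1)) = if x ∈ A then (1 - p) else 1 := by
    intro x _; split_ifs <;> ring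
  rw [Finset.prod_congr rfl h2, Finset.prod_ite, Finset.prod_const, Finset.prod_const_one, mul_one,
    Finset.filter_mem_eq_inter, Finset.inter_eq_right.mpr hA]

lemma pq_chernoff (s : Finset X) (q : X → Prop) [DecidablePred q] {p : ℝ} (hp0 : 0 ≤ p)
    (hp1 : p ≤ 1) (t : ℝ) :
    exs s p (fun W => ind (t < ((W.filter q).card : ℝ))) ≤
      Real.exp (-t + p * (s.filter q).card * (Real.exp 1 - 1)) := by
  have h1 : exs s p (fun W => ind (t < ((W.filter q).card : ℝ)))
      ≤ exs s p (fun W => Real.exp (-t) * ∏ x ∈ W, (if q x then Real.exp 1 else 1)) := by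
    apply exs_mono s hp0 hp1
    intro W _
    have h2 : Real.exp (-t) * ∏ x ∈ W, (if q x then Real.exp 1 else 1)
        = Real.exp (((W.filter q).card : ℝ) - t) := by
      rw [Finset.prod_ite, Finset.prod_const, Finset.prod_const_one, mul_one, ← Real.exp_nat_mul,
        ← Real.exp_add]
      congr 1; ring
    rw [h2]
    by_cases h : t < ((W.filter q).card : ℝ)
    · rw [ind_true h]
      exact Real.one_le_exp (by linarith)
    · rw [ind_false h]; exact (Real.exp_pos _).le
  refine h1.trans ?_
  rw [exs_mul_left, pq_prod]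
  have h2 : ∀ x ∈ s, (1 - p + p * (if q x then Real.exp 1 else 1))
      = if q x then (1 + p * (Real.exp 1 - 1)) else 1 := by
    intro x _; split_ifs <;> ring
  rw [Finset.prod_congr rfl h2, Finset.prod_ite, Finset.prod_const, Finset.prod_const_one, mul_one,
    Real.exp_add]
  apply mul_le_mul_of_nonneg_left _ (Real.exp_pos _).le
  have h3 : 1 + p * (Real.exp 1 - 1) ≤ Real.exp (p * (Real.exp 1 - 1)) := by
    have := Real.add_one_le_exp (p * (Real.exp 1 - 1))
    linarith
  have h4 : 0 ≤ 1 + p * (Real.exp 1 - 1) := by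
    have : 1 ≤ Real.exp 1 := Real.one_le_exp (by norm_num)
    nlinarith
  calc (1 + p * (Real.exp 1 - 1)) ^ (s.filter q).card
      ≤ (Real.exp (p * (Real.exp 1 - 1))) ^ (s.filter q).card :=
        pow_le_pow_left₀ h4 h3 _
    _ = Real.exp (p * (s.filter q).card * (Real.exp 1 - 1)) := by
        rw [← Real.exp_nat_mul]; congr 1; ring

lemma pq_sum {I : Type*} (s : Finset X) (p : ℝ) (F : Finset I) (g : I → Finset X → ℝ) :
    exs s p (fun W => ∑ i ∈ F, g i W) = ∑ i ∈ F, exs s p (g i) := by
  unfold exs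
  rw [Finset.sum_comm]
  apply Finset.sum_congr rfl
  intro W _
  rw [Finset.mul_sum]

lemma pq_union {I : Type*} (s : Finset X) {p : ℝ} (hp0 : 0 ≤ p) (hp1 : p ≤ 1) (F : Finset I)
    (P : I → Finset X → Prop) (Q : Finset X → Prop) (hQ : ∀ W, Q W → ∃ i ∈ F, P i W) (c : ℝ)
    (hc : ∀ i ∈ F, exs s p (fun W => ind (P i W)) ≤ c) :
    exs s p (fun W => ind (Q W)) ≤ F.card * c := by
  have h1 : exs s p (fun W => ind (Q W)) ≤ exs s p (fun W => ∑ i ∈ F, ind (P i W)) := by
    apply exs_mono s hp0 hp1
    intro W _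
    by_cases h : Q W
    · rw [ind_true h]
      obtain ⟨i, hi, hP⟩ := hQ W h
      calc (1:ℝ) = ind (P i W) := (ind_true hP).symm
        _ ≤ ∑ i ∈ F, ind (P i W) :=
          Finset.single_le_sum (f := fun i => ind (P i W)) (fun j _ => ind_nonneg _) hi
    · rw [ind_false h]; exact Finset.sum_nonneg (fun j _ => ind_nonneg _)
  refine h1.trans ?_
  rw [pq_sum]
  calc ∑ i ∈ F, exs s p (fun W => ind (P i W)) ≤ ∑ i ∈ F, c := Finset.sum_le_sum hc
    _ = F.card * c := by rw [Finset.sum_const, nsmul_eq_mul]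

/-- The second moment method for a family of sets of equal size with pairwise intersections of
size at most one. -/
lemma pq_second {I : Type*} (s : Finset X) {p : ℝ} (hp0 : 0 ≤ p) (hp1 : p < 1) (F : Finset I)
    (A : I → Finset X) (m : ℕ) (hF : F.Nonempty) (hA : ∀ i ∈ F, A i ⊆ s)
    (hm : ∀ i ∈ F, (A i).card = m)
    (hAA : ∀ i ∈ F, ∀ j ∈ F, i ≠ j → ∀ x ∈ A i, ∀ y ∈ A i, x ∈ A j → y ∈ A j → x = y) :
    exs s p (fun W => ind (∀ i ∈ F, ∃ x ∈ A i, x ∈ W)) ≤
      1 / (F.card * (1 - p) ^ m) + p / (1 - p) := by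
  set μ : ℝ := F.card * (1 - p) ^ m with hμ
  have hq : 0 < 1 - p := by linarith
  have hN : (0:ℝ) < F.card := by exact_mod_cast hF.card_pos
  have hμ0 : 0 < μ := by positivity
  set Y : Finset X → ℝ := fun W => ∑ i ∈ F, ind (∀ x ∈ A i, x ∉ W) with hY
  have h1 : exs s p Y = μ := by
    rw [hY, pq_sum, hμ, ← nsmul_eq_mul, ← Finset.sum_const]
    apply Finset.sum_congr rfl
    intro i hi
    rw [pq_avoid s (A i) (hA i hi), hm i hi]
  have h2 : exs s p (fun W => Y W * Y W) ≤ μ + μ ^ 2 / (1 - p) := by
    have e1 : exs s p (fun W => Y W * Y W)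
        = ∑ i ∈ F, ∑ j ∈ F, exs s p (fun W => ind (∀ x ∈ A i, x ∉ W) * ind (∀ x ∈ A j, x ∉ W)) := by
      have : (fun W => Y W * Y W) = fun W => ∑ i ∈ F, ∑ j ∈ F,
          (ind (∀ x ∈ A i, x ∉ W) * ind (∀ x ∈ A j, x ∉ W)) := by
        funext W
        rw [hY, Finset.sum_mul_sum]
      rw [this, pq_sum]
      apply Finset.sum_congr rfl
      intro i _
      rw [pq_sum]
    have e2 : ∀ i ∈ F, ∀ j ∈ F,
        exs s p (fun W => ind (∀ x ∈ A i, x ∉ W) * ind (∀ x ∈ A j, x ∉ W))
          ≤ (if i = j then (1 - p) ^ m else 0) + (1 - p) ^ (2 * m) / (1 - p) := by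
      intro i hi j hj
      have e3 : exs s p (fun W => ind (∀ x ∈ A i, x ∉ W) * ind (∀ x ∈ A j, x ∉ W))
          = (1 - p) ^ (A i ∪ A j).card := by
        rw [← pq_avoid s (A i ∪ A j) (Finset.union_subset (hA i hi) (hA j hj))]
        apply exs_congr
        intro W _
        by_cases ha : ∀ x ∈ A i, x ∉ W
        · by_cases hb : ∀ x ∈ A j, x ∉ W
          · rw [ind_true ha, ind_true hb, ind_true, one_mul]
            intro x hx
            rcases Finset.mem_union.mp hx with h | h
            · exact ha x h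
            · exact hb x h
          · rw [ind_false hb, mul_zero, ind_false]
            intro h
            exact hb (fun x hx => h x (Finset.mem_union_right _ hx))
        · rw [ind_false ha, zero_mul, ind_false]
          intro h
          exact ha (fun x hx => h x (Finset.mem_union_left _ hx))
      rw [e3]
      by_cases hij : i = j
      · subst hij
        rw [Finset.union_self, hm i hi, if_pos rfl]
        have : 0 ≤ (1 - p) ^ (2 * m) / (1 - p) := by positivity
        linarith
      · rw [if_neg hij, zero_add]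
        have h3 := Finset.card_union_add_card_inter (A i) (A j)
        have h4 : (A i ∩ A j).card ≤ 1 := by
          rw [Finset.card_le_one]
          intro a ha b hb
          exact hAA i hi j hj hij a (Finset.mem_inter.mp ha).1 b (Finset.mem_inter.mp hb).1
            (Finset.mem_inter.mp ha).2 (Finset.mem_inter.mp hb).2
        rw [hm i hi, hm j hj] at h3
        rw [le_div_iff₀ hq, ← pow_succ]
        apply pow_le_pow_of_le_one hq.le (by linarith)
        omega
    rw [e1]
    calc ∑ i ∈ F, ∑ j ∈ F, exs s p (fun W => ind (∀ x ∈ A i, x ∉ W) * ind (∀ x ∈ A j, x ∉ W))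
        ≤ ∑ i ∈ F, ∑ j ∈ F, ((if i = j then (1 - p) ^ m else 0) + (1 - p) ^ (2 * m) / (1 - p)) :=
          Finset.sum_le_sum (fun i hi => Finset.sum_le_sum (fun j hj => e2 i hi j hj))
      _ = μ + μ ^ 2 / (1 - p) := by
          have : ∀ i ∈ F, ∑ j ∈ F, ((if i = j then (1 - p) ^ m else 0)
              + (1 - p) ^ (2 * m) / (1 - p)) = (1 - p) ^ m
                + F.card * ((1 - p) ^ (2 * m) / (1 - p)) := by
            intro i hi
            rw [Finset.sum_add_distrib, Finset.sum_ite_eq, if_pos hi, Finset.sum_const,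
              nsmul_eq_mul]
          rw [Finset.sum_congr rfl this, Finset.sum_const, nsmul_eq_mul, hμ, pow_mul']
          ring
  have h3 : exs s p (fun W => ind (∀ i ∈ F, ∃ x ∈ A i, x ∈ W))
      ≤ exs s p (fun W => (1 / μ ^ 2) * (Y W * Y W - 2 * μ * Y W + μ ^ 2)) := by
    apply exs_mono s hp0 hp1.le
    intro W _
    by_cases h : ∀ i ∈ F, ∃ x ∈ A i, x ∈ W
    · rw [ind_true h]
      have hY0 : Y W = 0 := by
        rw [hY]
        apply Finset.sum_eq_zero
        intro i hi
        rw [ind_false]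
        intro h'
        obtain ⟨x, hx, hxW⟩ := h i hi
        exact h' x hx hxW
      rw [hY0]
      apply le_of_eq
      field_simp
      ring
    · rw [ind_false h]
      have : Y W * Y W - 2 * μ * Y W + μ ^ 2 = (Y W - μ) ^ 2 := by ring
      rw [this]; positivity
  have h4 : exs s p (fun W => (1 / μ ^ 2) * (Y W * Y W - 2 * μ * Y W + μ ^ 2))
      = (1 / μ ^ 2) * (exs s p (fun W => Y W * Y W) - 2 * μ * μ + μ ^ 2) := by
    rw [exs_mul_left, exs_add s p (fun W => Y W * Y W - 2 * μ * Y W) (fun _ => μ ^ 2), exs_const,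
      exs_sub s p (fun W => Y W * Y W) (fun W => 2 * μ * Y W), exs_mul_left, h1]
  rw [h4] at h3
  refine h3.trans ?_
  calc (1 / μ ^ 2) * (exs s p (fun W => Y W * Y W) - 2 * μ * μ + μ ^ 2)
      ≤ (1 / μ ^ 2) * (μ + μ ^ 2 / (1 - p) - 2 * μ * μ + μ ^ 2) := by
        apply mul_le_mul_of_nonneg_left _ (by positivity)
        linarith
    _ = 1 / μ + p / (1 - p) := by
        field_simp
        ring

end general

section hyper

variable {n : ℕ}

/-- The edges containing `f`. -/
lemma pq_above {k : ℕ} (hk : 2 ≤ k) (f : Finset (Fin n)) (hf : f ∈ facets n k) :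
    ((edges n k).filter (fun e => f ⊆ e)).card = n - (k - 1) := by
  have hfc : f.card = k - 1 := (Finset.mem_powersetCard.mp hf).2
  have h1 : (edges n k).filter (fun e => f ⊆ e) = (univ \ f).image (fun x => insert x f) := by
    ext e
    rw [Finset.mem_filter, edges, Finset.mem_powersetCard, Finset.mem_image]
    constructor
    · rintro ⟨⟨_, he⟩, hfe⟩
      have h2 : (e \ f).card = 1 := by
        rw [Finset.card_sdiff_of_subset hfe]; omega
      obtain ⟨x, hx⟩ := Finset.card_eq_one.mp h2
      have hx' : x ∈ e \ f := by rw [hx]; exact Finset.mem_singleton_self x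
      refine ⟨x, Finset.mem_sdiff.mpr ⟨Finset.mem_univ _, (Finset.mem_sdiff.mp hx').2⟩, ?_⟩
      rw [Finset.insert_eq, ← hx, Finset.sdiff_union_of_subset hfe]
    · rintro ⟨x, hx, rfl⟩
      refine ⟨⟨Finset.subset_univ _, ?_⟩, Finset.subset_insert _ _⟩
      rw [Finset.card_insert_of_notMem (Finset.mem_sdiff.mp hx).2, hfc]; omega
  rw [h1, Finset.card_image_of_injOn, Finset.card_sdiff_of_subset (Finset.subset_univ _),
    Finset.card_univ, Fintype.card_fin, hfc]
  intro x hx y hy hxy
  have hx' : x ∉ f := (Finset.mem_sdiff.mp hx).2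
  have : x ∈ insert y f := by
    simp only at hxy
    rw [← hxy]; exact Finset.mem_insert_self _ _
  rcases Finset.mem_insert.mp this with h | h
  · exact h
  · exact absurd h hx'

lemma pq_two {k : ℕ} (hk : 2 ≤ k) (f g : Finset (Fin n)) (hf : f ∈ facets n k)
    (hg : g ∈ facets n k) (hfg : f ≠ g) (a b : Finset (Fin n))
    (ha : a ∈ (edges n k).filter (fun e => f ⊆ e)) (hb : b ∈ (edges n k).filter (fun e => f ⊆ e))
    (ha' : a ∈ (edges n k).filter (fun e => g ⊆ e))
    (hb' : b ∈ (edges n k).filter (fun e => g ⊆ e)) : a = b := by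
  have hfc : f.card = k - 1 := (Finset.mem_powersetCard.mp hf).2
  have hgc : g.card = k - 1 := (Finset.mem_powersetCard.mp hg).2
  have key : ∀ e, e ∈ (edges n k).filter (fun e => f ⊆ e) →
      e ∈ (edges n k).filter (fun e => g ⊆ e) → f ∪ g = e := by
    intro e he he'
    rw [Finset.mem_filter, edges, Finset.mem_powersetCard] at he he'
    apply Finset.eq_of_subset_of_card_le (Finset.union_subset he.2 he'.2)
    rw [he.1.2]
    by_contra hlt
    push Not at hlt
    have h1 : f = f ∪ g := Finset.eq_of_subset_of_card_le Finset.subset_union_left (by omega)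
    have h2 : g = f ∪ g := Finset.eq_of_subset_of_card_le Finset.subset_union_right (by omega)
    exact hfg (h1.trans h2.symm)
  rw [← key a ha ha', ← key b hb hb']

lemma pq_facets_card (n k : ℕ) : (facets n k).card = n.choose (k - 1) := by
  rw [facets, Finset.card_powersetCard, Finset.card_univ, Fintype.card_fin]

lemma pq_facets_le (n k : ℕ) (hk : 1 ≤ k) : ((facets n k).card : ℝ) ≤ (n : ℝ) ^ ((k : ℝ) - 1) := by
  rw [pq_facets_card, show (k : ℝ) - 1 = ((k - 1 : ℕ) : ℝ) by push_cast [Nat.cast_sub hk]; ring,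
    Real.rpow_natCast]
  exact_mod_cast Nat.choose_le_pow n (k - 1)

end hyper

end Pool.Agent.TH948.HT
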